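import Pool.Agent.H42.GroT3

open Pool.Agent.H42.PropT Pool.Agent.H42.GroDefs

/-- Some maximal subalgebra with property (T) fails the Grothendieck property. -/
theorem Pool.Agent.Results.MP_54cd88_an.Full.result :
    ∃ B : Set (Set (ℕ → Bool)), Maximal HasT B ∧ ¬Groth C(St B, ℝ) :=
  Pool.Agent.H42.GroT3.main
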